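import Mathlib
import Pool.Agent.Q100.GD5

set_option autoImplicit false

open Filter Topology MeasureTheory
open scoped ENNReal

namespace Pool.Agent.Results.MP_ab3705_an.GdeltaIsometryClass

/-- The rational vector space of finitely supported sequences of rationals. -/
abbrev V : Type := ℕ →₀ ℚ

/-- `μ` is a pseudonorm on `V`. -/
def IsPseudonorm (μ : V → ℝ) : Prop :=
  (∀ v, 0 ≤ μ v) ∧ (∀ u v, μ (u + v) ≤ μ u + μ v) ∧ ∀ (q : ℚ) (v : V), μ (q • v) = |(q : ℝ)| * μ v

/-- The real Banach space `X`, with the additive map `ι : V → X`, is the completion `X_μ` of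
`V / {μ = 0}` under the norm induced by `μ`: `‖ι v‖ = μ v` for all `v` and `ι` has dense range.
This determines `X` up to a linear isometry compatible with `ι`. -/
def Realizes (μ : V → ℝ) (X : Type) [NormedAddCommGroup X] [NormedSpace ℝ X] (ι : V →+ X) : Prop :=
  (∀ v, ‖ι v‖ = μ v) ∧ DenseRange ι

/-- `𝒫_∞`: the pseudonorms `μ` for which `X_μ` is infinite-dimensional. As a subspace of `V → ℝ` it
carries the topology of pointwise convergence. -/
def PInf : Set (V → ℝ) :=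
  {μ | IsPseudonorm μ ∧ ∃ (Y : Type) (_ : NormedAddCommGroup Y) (_ : NormedSpace ℝ Y)
    (_ : CompleteSpace Y) (ι : V →+ Y), Realizes μ Y ι ∧ ¬ FiniteDimensional ℝ Y}

/-- `ℬ`: the elements of `𝒫_∞` which are norms on `V`. -/
def BNorm : Set (V → ℝ) := {μ | μ ∈ PInf ∧ ∀ v, μ v = 0 → v = 0}

/-- The isometry class of the Banach space `X` in a set `S` of codes: the codes `μ` in `S` for which
`X_μ` is `X` up to a linear isometry. -/
def isometryClass (S : Set (V → ℝ)) (X : Type) [NormedAddCommGroup X] [NormedSpace ℝ X] : Set S :=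
  {μ | ∃ ι : V →+ X, Realizes μ.1 X ι}

/-- The defining property of the Gurarii space: for all finite-dimensional `E ⊆ F`, every linear
isometric embedding `T : E → G` and every `ε > 0`, there is a linear extension of `T` to `F` which is
an isometric embedding up to `ε`. -/
def IsGurarii (G : Type) [NormedAddCommGroup G] [NormedSpace ℝ G] : Prop :=
  ∀ (F : Type) [NormedAddCommGroup F] [NormedSpace ℝ F] [FiniteDimensional ℝ F]
    (E : Submodule ℝ F) (T : E →ₗᵢ[ℝ] G) (ε : ℝ), 0 < ε →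
    ∃ T' : F →ₗ[ℝ] G, (∀ x : E, T' x = T x) ∧
      ∀ x, (1 - ε) * ‖x‖ ≤ ‖T' x‖ ∧ ‖T' x‖ ≤ (1 + ε) * ‖x‖

/-- `X` is linearly isometric to `L_p[0,1]` for some `p` with `1 ≤ p < ∞`. -/
def IsometricToLp (X : Type) [NormedAddCommGroup X] [NormedSpace ℝ X] : Prop :=
  ∃ (p : ℝ≥0∞) (_ : Fact (1 ≤ p)), p ≠ ∞ ∧
    Nonempty (X ≃ₗᵢ[ℝ] Lp ℝ p (volume.restrict (Set.Icc (0 : ℝ) 1)))

/-- `X` is linearly isometric to the Gurarii space. -/
def IsometricToGurarii (X : Type) [NormedAddCommGroup X] [NormedSpace ℝ X] : Prop :=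
  ∃ (G : Type) (_ : NormedAddCommGroup G) (_ : NormedSpace ℝ G), IsGurarii G ∧
    Nonempty (X ≃ₗᵢ[ℝ] G)

/-- `X` answers the question: it is a separable infinite-dimensional Banach space, linearly isometric
neither to any `L_p[0,1]`, `1 ≤ p < ∞`, nor to the Gurarii space, and its isometry class is a `G_δ`
set both in `𝒫_∞` and in `ℬ`. -/
structure Answers (X : Type) [NormedAddCommGroup X] [NormedSpace ℝ X] : Prop where
  complete : CompleteSpace X
  separable : TopologicalSpace.SeparableSpace X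
  infinite_dimensional : ¬ FiniteDimensional ℝ X
  not_Lp : ¬ IsometricToLp X
  not_Gurarii : ¬ IsometricToGurarii X
  isGδ_PInf : IsGδ (isometryClass PInf X)
  isGδ_BNorm : IsGδ (isometryClass BNorm X)

/-- **Theorem.** The direct sum of the Hilbert space `ℓ²(ℕ)` and the line, with the norm
`‖(h, t)‖ = ‖h‖ + |t|`, is a separable infinite-dimensional Banach space which is linearly
isometric neither to any `L_p[0,1]`, `1 ≤ p < ∞`, nor to the Gurarii space, and its isometry class is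
a `G_δ` set both in `𝒫_∞` and in `ℬ`. -/
theorem result : Answers (WithLp 1 (lp (fun _ : ℕ => ℝ) 2 × ℝ)) := by
  refine ⟨inferInstance, Q100.GD.separable, Q100.GD.infinite_dim, ?_, ?_, ?_, ?_⟩
  · rintro ⟨p, hp1, hp, ⟨e⟩⟩
    exact (Q100.GD.not_Lp p hp).false e
  · rintro ⟨G, _, _, hG, ⟨e⟩⟩
    let T : (⊥ : Submodule ℝ Q100.GD.F4) →ₗᵢ[ℝ] G :=
      { toLinearMap := 0
        norm_map' := by
          rintro ⟨x, hx⟩
          have h0 : x = 0 := (Submodule.mem_bot ℝ).1 hx
          subst h0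
          show ‖(0 : G)‖ = ‖(0 : Q100.GD.F4)‖
          rw [norm_zero, norm_zero] }
    obtain ⟨T', _, hT'⟩ := hG Q100.GD.F4 ⊥ T (1 / 10) (by norm_num)
    apply Q100.GD.not_almost ((e.symm.toLinearEquiv : G →ₗ[ℝ] Q100.GD.X0).comp T')
    intro x
    show (1 - 1 / 10) * ‖x‖ ≤ ‖e.symm (T' x)‖ ∧ ‖e.symm (T' x)‖ ≤ (1 + 1 / 10) * ‖x‖
    rw [e.symm.norm_map]
    exact hT' x
  · refine Q100.GD.isGδ_class PInf ?_
    rintro μ ⟨_, Y, i1, i2, i3, ι, h1, h2⟩
    exact ⟨Y, i1, i2, i3, ι, h1.1, h1.2, h2⟩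
  · refine Q100.GD.isGδ_class BNorm ?_
    rintro μ ⟨⟨_, Y, i1, i2, i3, ι, h1, h2⟩, _⟩
    exact ⟨Y, i1, i2, i3, ι, h1.1, h1.2, h2⟩

end Pool.Agent.Results.MP_ab3705_an.GdeltaIsometryClass
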